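import Pool.Agent.H336R5.PS.Defs

set_option autoImplicit false

namespace Pool.Agent.H633R5.PS

open Filter Topology MeasureTheory
open Pool.Agent.H336R5.PS

/-- unimodular exponential -/
noncomputable def ee (x : ℝ) : ℂ := Complex.exp (Complex.I * (x : ℂ))

theorem ee_add (x y : ℝ) : ee (x + y) = ee x * ee y := by
  unfold ee
  rw [← Complex.exp_add]
  congr 1
  push_cast
  ring

theorem ee_conj (x : ℝ) : (starRingEnd ℂ) (ee x) = ee (-x) := by
  unfold ee
  rw [← Complex.exp_conj]
  congr 1
  rw [map_mul, Complex.conj_I, Complex.conj_ofReal]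
  push_cast
  ring

theorem ee_re (x : ℝ) : (ee x).re = Real.cos x := by
  unfold ee
  rw [mul_comm, Complex.exp_ofReal_mul_I_re]

theorem ee_im (x : ℝ) : (ee x).im = Real.sin x := by
  unfold ee
  rw [mul_comm, Complex.exp_ofReal_mul_I_im]

theorem logD {P : Finset ℕ} (hP : ∀ p ∈ P, p.Prime) {U : Finset ℕ} (hU : U ⊆ P) :
    Real.log (D U) = ∑ p ∈ U, Real.log p := by
  unfold D
  rw [Nat.cast_prod, Real.log_prod]
  intro p hp
  exact Nat.cast_ne_zero.mpr (hP p (hU hp)).ne_zero

theorem eeD {P : Finset ℕ} (hP : ∀ p ∈ P, p.Prime) {U : Finset ℕ} (hU : U ⊆ P) (t : ℝ) :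
    ee (t * Real.log (D U)) = ∏ p ∈ U, ee (t * Real.log p) := by
  rw [logD hP hU]
  unfold ee
  rw [← Complex.exp_sum]
  congr 1
  rw [Finset.mul_sum]
  push_cast
  rw [Finset.mul_sum]

theorem normSq_one_add (x : ℝ) : Complex.normSq (1 + ee x) = 2 * (1 + Real.cos x) := by
  rw [Complex.normSq_apply, Complex.add_re, Complex.add_im, ee_re, ee_im, Complex.one_re,
    Complex.one_im]
  have := Real.sin_sq_add_cos_sq x
  nlinarith

theorem sum_all {P : Finset ℕ} (hP : ∀ p ∈ P, p.Prime) (t : ℝ) :
    ∑ x ∈ P.powerset ×ˢ P.powerset, ee (t * (Real.log (D x.2) - Real.log (D x.1)))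
      = ((2 ^ P.card * f P t : ℝ) : ℂ) := by
  set A : ℂ := ∑ U ∈ P.powerset, ee (t * Real.log (D U)) with hA
  have h1 : A = ∏ p ∈ P, (1 + ee (t * Real.log p)) := by
    rw [Finset.prod_one_add, hA]
    apply Finset.sum_congr rfl
    intro U hU
    exact eeD hP (Finset.mem_powerset.mp hU) t
  have h2 : ∑ x ∈ P.powerset ×ˢ P.powerset, ee (t * (Real.log (D x.2) - Real.log (D x.1)))
      = (starRingEnd ℂ) A * A := by
    rw [hA, map_sum, Finset.sum_mul_sum, Finset.sum_product]
    apply Finset.sum_congr rfl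
    intro U _
    apply Finset.sum_congr rfl
    intro V _
    rw [ee_conj, ← ee_add]
    congr 1
    simp only
    ring
  rw [h2, mul_comm, Complex.mul_conj, h1, map_prod]
  congr 1
  simp only [normSq_one_add]
  rw [Finset.prod_mul_distrib, Finset.prod_const]
  rfl

theorem D_inj {P : Finset ℕ} (hP : ∀ p ∈ P, p.Prime) {U V : Finset ℕ} (hU : U ⊆ P) (hV : V ⊆ P)
    (h : D U = D V) : U = V := by
  have h1 := Nat.primeFactors_prod (fun p hp => hP p (hU hp))
  have h2 := Nat.primeFactors_prod (fun p hp => hP p (hV hp))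
  rw [← h1, ← h2]
  exact congrArg Nat.primeFactors h

theorem taskE : TaskE := by
  classical
  intro P hP t
  set E : Finset ℕ × Finset ℕ → ℝ := fun x => Real.cos (t * (Real.log (D x.2) - Real.log (D x.1)))
    with hE
  set all := P.powerset ×ˢ P.powerset with hall
  have h1 : ∑ x ∈ all, E x = 2 ^ P.card * f P t := by
    have := congrArg Complex.re (sum_all hP t)
    rw [Complex.re_sum, Complex.ofReal_re] at this
    rw [← this]
    apply Finset.sum_congr rfl
    intro x _
    rw [ee_re]
  set SL := ∑ x ∈ all.filter (fun x => D x.1 < D x.2), E x with hSL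
  have h2 : ∑ x ∈ all.filter (fun x => D x.2 < D x.1), E x = SL := by
    rw [hSL]
    refine Finset.sum_nbij' Prod.swap Prod.swap ?_ ?_ ?_ ?_ ?_
    · intro x hx
      simp only [hall, Finset.mem_filter, Finset.mem_product, Finset.mem_powerset,
        Prod.fst_swap, Prod.snd_swap] at hx ⊢
      exact ⟨⟨hx.1.2, hx.1.1⟩, hx.2⟩
    · intro x hx
      simp only [hall, Finset.mem_filter, Finset.mem_product, Finset.mem_powerset,
        Prod.fst_swap, Prod.snd_swap] at hx ⊢
      exact ⟨⟨hx.1.2, hx.1.1⟩, hx.2⟩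
    · intro x _
      simp
    · intro x _
      simp
    · intro x _
      simp only [hE, Prod.fst_swap, Prod.snd_swap]
      rw [← Real.cos_neg]
      congr 1
      ring
  have h3 : ∑ x ∈ all.filter (fun x => D x.1 = D x.2), E x = 2 ^ P.card := by
    have h4 : all.filter (fun x => D x.1 = D x.2) = P.powerset.diag := by
      ext x
      simp only [hall, Finset.mem_filter, Finset.mem_product, Finset.mem_diag]
      constructor
      · rintro ⟨⟨ha, hb⟩, hc⟩
        exact ⟨ha, D_inj hP (Finset.mem_powerset.mp ha) (Finset.mem_powerset.mp hb) hc⟩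
      · rintro ⟨ha, hb⟩
        exact ⟨⟨ha, hb ▸ ha⟩, by rw [hb]⟩
    have h5 : ∀ x ∈ all.filter (fun x => D x.1 = D x.2), E x = 1 := by
      intro x hx
      have := (Finset.mem_filter.mp hx).2
      simp only [hE, this, sub_self, mul_zero, Real.cos_zero]
    rw [Finset.sum_congr rfl h5, h4, Finset.sum_const, Finset.diag_card, Finset.card_powerset]
    simp
  have h6 : ∑ x ∈ all, E x = SL + 2 ^ P.card + SL := by
    rw [← Finset.sum_filter_add_sum_filter_not all (fun x => D x.1 < D x.2) E]
    have h7 := Finset.sum_filter_add_sum_filter_not (all.filter (fun x => ¬ D x.1 < D x.2))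
      (fun x => D x.1 = D x.2) E
    rw [Finset.filter_filter, Finset.filter_filter] at h7
    have h8 : all.filter (fun x => ¬ D x.1 < D x.2 ∧ D x.1 = D x.2)
        = all.filter (fun x => D x.1 = D x.2) := by
      apply Finset.filter_congr
      intro x _
      omega
    have h9 : all.filter (fun x => ¬ D x.1 < D x.2 ∧ ¬ D x.1 = D x.2)
        = all.filter (fun x => D x.2 < D x.1) := by
      apply Finset.filter_congr
      intro x _
      omega
    rw [h8, h9, h2, h3] at h7
    rw [← h7]
    ring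
  have h10 : (F P t).re = 1 + 2 * (1 / 2 : ℝ) ^ P.card * SL := by
    unfold F
    rw [Complex.add_re, Complex.one_re]
    congr 1
    have e1 : (2 * (1 / 2 : ℂ) ^ P.card) = ((2 * (1 / 2 : ℝ) ^ P.card : ℝ) : ℂ) := by
      push_cast
      ring
    rw [e1, Complex.re_ofReal_mul, Complex.re_sum]
    congr 1
    apply Finset.sum_congr rfl
    intro x _
    exact ee_re _
  rw [h10]
  have h11 : (1 / 2 : ℝ) ^ P.card * 2 ^ P.card = 1 := by
    rw [← mul_pow]
    norm_num
  have h12 : 2 ^ P.card * f P t = 2 * SL + 2 ^ P.card := by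
    rw [← h1, h6]
    ring
  have h13 : f P t = (1 / 2 : ℝ) ^ P.card * (2 ^ P.card * f P t) := by
    rw [← mul_assoc, h11, one_mul]
  rw [h13, h12, mul_add, h11]
  ring

end Pool.Agent.H633R5.PS
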